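import Pool.Agent.Q180.Homog
import Pool.Agent.Y443.BR.Fin

/-!
# A homogeneous space which is not a countable union of strongly homogeneous subspaces

Let `E` be the orbit equivalence relation of the finite permutations of `ω` acting on the Cantor
space `2^ω`. Its classes are dense, except for countably many points, so all `E`-invariant sets of
other points are homogeneous. The Bernoulli measures `μ_p`, `0 < p < 1`, are `E`-invariant, and
they live on the disjoint `E`-invariant sets `X_p` of the sequences in which the frequency of `1` is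
`p`. By a transfinite recursion of length continuum we construct an `E`-invariant set `X` which
meets all uncountable Borel sets and such that for a homeomorphism `h` between subspaces of `X` all
but fewer than `𝔠` points `z` satisfy `z E h(z)`. If `X` is the union of countably many subspaces,
then for one of them, `Z`, there are `𝔠` many `p` with `μ_p^*(Z) > 0`. For all but fewer than `𝔠`
many `p` a homeomorphism of `Z` onto a clopen subset preserves the outer measure `μ_p^*`, so `Z` is
not homeomorphic to both pieces of a clopen partition.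
-/

set_option autoImplicit false

open Set Cardinal Topology MeasureTheory Filter Pool.Agent.Q180.Homog

namespace Pool.Agent.Results.MP_999952_gt.NotStrongly

/-- A non-empty space `Y` is strongly homogeneous if every non-empty clopen subset of `Y` is
homeomorphic to `Y`. -/
def StronglyHomogeneous (Y : Type) [TopologicalSpace Y] : Prop :=
  Nonempty Y ∧ ∀ U : Set Y, IsClopen U → U.Nonempty → Nonempty (U ≃ₜ Y)

/-- `X` is `σ`-homogeneous with strongly homogeneous witnesses. -/
def SigmaStronglyHomogeneous (X : Type) [TopologicalSpace X] : Prop :=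
  ∃ A : ℕ → Set X, (⋃ n, A n) = Set.univ ∧ ∀ n, StronglyHomogeneous (A n)

/-! ### The equivalence relation -/

/-- A countable group. -/
abbrev G : Type := FreeGroup (ℕ × ℕ)

/-- The finite permutations of the natural numbers. -/
noncomputable def φ : G →* Equiv.Perm ℕ := FreeGroup.lift fun p => Equiv.swap p.1 p.2

theorem φ_of (j k : ℕ) : φ (FreeGroup.of (j, k)) = Equiv.swap j k := by
  unfold φ
  rw [FreeGroup.lift_apply_of]

theorem φ_range (g : G) : ∃ N, ∀ n ≥ N, ∀ i, φ g i < n ↔ i < n := by
  have hinv : ∀ g : G, (∃ N, ∀ n ≥ N, ∀ i, φ g i < n ↔ i < n) →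
      ∃ N, ∀ n ≥ N, ∀ i, φ g⁻¹ i < n ↔ i < n := by
    rintro g ⟨N, hN⟩
    refine ⟨N, fun n hn i => ?_⟩
    have h := hN n hn (φ g⁻¹ i)
    rw [← h, ← Equiv.Perm.mul_apply, ← map_mul, mul_inv_cancel, map_one, Equiv.Perm.one_apply]
  have hswap : ∀ p : ℕ × ℕ, ∃ N, ∀ n ≥ N, ∀ i, φ (FreeGroup.of p) i < n ↔ i < n := by
    rintro ⟨j, k⟩
    refine ⟨max j k + 1, fun n hn i => ?_⟩
    have hj : j < n := lt_of_lt_of_le (Nat.lt_succ_of_le (le_max_left _ _)) hn
    have hk : k < n := lt_of_lt_of_le (Nat.lt_succ_of_le (le_max_right _ _)) hn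
    rw [φ_of]
    rcases eq_or_ne i j with rfl | hij
    · rw [Equiv.swap_apply_left]
      exact ⟨fun _ => hj, fun _ => hk⟩
    · rcases eq_or_ne i k with rfl | hik
      · rw [Equiv.swap_apply_right]
        exact ⟨fun _ => hk, fun _ => hj⟩
      · rw [Equiv.swap_apply_of_ne_of_ne hij hik]
  induction g using FreeGroup.induction_on with
  | C1 => exact ⟨0, fun n _ i => by simp⟩
  | of p => exact hswap p
  | inv_of p _ => exact hinv _ (hswap p)
  | mul g h hg hh =>
    obtain ⟨N, hN⟩ := hg
    obtain ⟨M, hM⟩ := hh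
    refine ⟨max N M, fun n hn i => ?_⟩
    rw [map_mul, Equiv.Perm.mul_apply, hN n ((le_max_left _ _).trans hn),
      hM n ((le_max_right _ _).trans hn)]

/-- The action on the Cantor space. -/
noncomputable def act (g : G) (x : C) : C := fun i => x (φ g i)

theorem act_mul (g h : G) (x : C) : act h (act g x) = act (g * h) x := by
  funext i
  simp [act]

theorem act_inv (g : G) (x : C) : act g⁻¹ (act g x) = x := by
  rw [act_mul, mul_inv_cancel]
  funext i
  simp [act]

theorem act_inv' (g : G) (x : C) : act g (act g⁻¹ x) = x := by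
  rw [act_mul, inv_mul_cancel]
  funext i
  simp [act]

theorem continuous_act (g : G) : Continuous (act g) :=
  continuous_pi fun _ => continuous_apply _

/-- The orbit equivalence relation. -/
def E (x y : C) : Prop := ∃ g : G, act g x = y

theorem hE : Equivalence E := by
  refine ⟨fun x => ⟨1, ?_⟩, ?_, ?_⟩
  · funext i
    simp [act]
  · rintro x y ⟨g, rfl⟩
    exact ⟨g⁻¹, act_inv g x⟩
  · rintro x y z ⟨g, rfl⟩ ⟨h, rfl⟩
    exact ⟨g * h, (act_mul g h x).symm⟩

theorem het (z w : C) (h : E z w) : ∃ g : C ≃ₜ C, g z = w ∧ ∀ u, E u (g u) := by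
  obtain ⟨g, rfl⟩ := h
  refine ⟨{ toFun := act g
            invFun := act g⁻¹
            left_inv := act_inv g
            right_inv := act_inv' g
            continuous_toFun := continuous_act g
            continuous_invFun := continuous_act g⁻¹ }, rfl, fun u => ⟨g, rfl⟩⟩

theorem countable_class (x : C) : {y | E x y}.Countable := by
  have : {y | E x y} = range fun g : G => act g x := rfl
  rw [this]
  exact countable_range _

/-- Both values are taken infinitely often. -/
def Bal (x : C) : Prop := ∀ b : Bool, {i | x i = b}.Infinite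

theorem Bal.of_E {x y : C} (hx : Bal x) (h : E x y) : Bal y := by
  obtain ⟨g, rfl⟩ := h
  intro b
  have h1 : {i | act g x i = b} = (φ g) ⁻¹' {i | x i = b} := rfl
  rw [h1]
  exact (hx b).preimage (by rw [(φ g).range_eq_univ]; exact subset_univ _)

theorem exists_E_cyl {x : C} (hx : Bal x) (s : C) (n : ℕ) : ∃ y, E x y ∧ y ∈ cyl s n := by
  induction n with
  | zero => exact ⟨x, hE.refl x, fun i hi => absurd hi (Nat.not_lt_zero i)⟩
  | succ n ih =>
    obtain ⟨y, hxy, hy⟩ := ih
    obtain ⟨j, hj, hnj⟩ := (hx.of_E hxy (s n)).exists_gt n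
    have hj' : y j = s n := hj
    refine ⟨act (FreeGroup.of (n, j)) y, hE.trans hxy ⟨_, rfl⟩, fun i hi => ?_⟩
    change y (φ (FreeGroup.of (n, j)) i) = s i
    rw [φ_of]
    rcases eq_or_ne i n with rfl | hin
    · rw [Equiv.swap_apply_left, hj']
    · have hin' : i < n := lt_of_le_of_ne (Nat.le_of_lt_succ hi) hin
      rw [Equiv.swap_apply_of_ne_of_ne hin (hin'.trans hnj).ne]
      exact hy i hin'

theorem dense_class {x : C} (hx : Bal x) : Dense {y | E x y} := by
  rw [dense_iff_inter_open]
  rintro O hO ⟨s, hs⟩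
  obtain ⟨n, hn⟩ := exists_cyl hO hs
  obtain ⟨y, hxy, hy⟩ := exists_E_cyl hx s n
  exact ⟨y, hn hy, hxy⟩

theorem countable_not_bal : {x : C | ¬ Bal x}.Countable := by
  have h : ∀ b : Bool, {x : C | {i | x i = b}.Finite}.Countable := by
    intro b
    have h1 : {s : Set ℕ | s.Finite ∧ s ⊆ univ}.Countable :=
      Set.countable_ofPred_finite_subset countable_univ
    have h2 : Function.Injective fun x : C => {i | x i = b} := by
      intro x y hxy
      funext i
      have h3 : x i = b ↔ y i = b := Set.ext_iff.1 hxy i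
      cases b <;> cases hx : x i <;> cases hy : y i <;> simp_all
    refine (h1.preimage_of_injOn (f := fun x : C => {i | x i = b}) h2.injOn).mono fun x hx => ?_
    exact And.intro hx (subset_univ _)
  refine ((h true).union (h false)).mono fun x hx => ?_
  unfold Bal at hx
  simp only [mem_ofPred_eq, not_forall] at hx
  obtain ⟨b, hb⟩ := hx
  cases b
  · exact Or.inr (not_not.1 hb)
  · exact Or.inl (not_not.1 hb)

/-! ### Frequencies -/

/-- The indicator of `true`. -/
noncomputable def ind (b : Bool) : ℝ := if b then 1 else 0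

/-- The frequency of `true` in `x` is `p`. -/
def Freq (p : ℝ) : Set C :=
  {x | Tendsto (fun n : ℕ => (∑ i ∈ Finset.range n, ind (x i)) / n) atTop (𝓝 p)}

theorem Freq.of_E {p : ℝ} {x y : C} (hx : x ∈ Freq p) (h : E x y) : y ∈ Freq p := by
  obtain ⟨g, rfl⟩ := h
  obtain ⟨N, hN⟩ := φ_range g
  refine Tendsto.congr' ?_ hx
  filter_upwards [eventually_ge_atTop N] with n hn
  congr 1
  exact (Finset.sum_equiv (φ g) (fun i => by simp [hN n hn i]) fun i _ => rfl).symm

theorem Freq.eq {p q : ℝ} {x : C} (hp : x ∈ Freq p) (hq : x ∈ Freq q) : p = q :=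
  tendsto_nhds_unique hp hq

/-! ### Bernoulli measures -/

/-- The distribution of a coin. -/
noncomputable def coin (p : Ioo (0 : ℝ) 1) : Measure Bool :=
  ENNReal.ofReal p.1 • Measure.dirac true + ENNReal.ofReal (1 - p.1) • Measure.dirac false

instance (p : Ioo (0 : ℝ) 1) : IsProbabilityMeasure (coin p) := by
  refine ⟨?_⟩
  simp only [coin, Measure.coe_add, Measure.coe_smul, Pi.add_apply, Pi.smul_apply, measure_univ,
    smul_eq_mul, mul_one]
  rw [← ENNReal.ofReal_add p.2.1.le (sub_nonneg.2 p.2.2.le)]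
  simp

theorem coin_singleton (p : Ioo (0 : ℝ) 1) (b : Bool) :
    coin p {b} ≤ ENNReal.ofReal (max p.1 (1 - p.1)) := by
  cases b
  · simp [coin]
  · simp [coin]

/-- The Bernoulli measure. -/
noncomputable def bern (p : Ioo (0 : ℝ) 1) : Measure C := Measure.infinitePi fun _ : ℕ => coin p

instance (p : Ioo (0 : ℝ) 1) : IsProbabilityMeasure (bern p) := by
  unfold bern
  infer_instance

theorem bern_cyl (p : Ioo (0 : ℝ) 1) (x : C) (n : ℕ) :
    bern p (cyl x n) ≤ ENNReal.ofReal (max p.1 (1 - p.1)) ^ n := by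
  have h : cyl x n = Set.pi (Finset.range n : Set ℕ) fun i => {x i} := by
    ext z
    simp [cyl]
  unfold bern
  rw [h, Measure.infinitePi_pi _ (fun i _ => MeasurableSet.singleton _)]
  calc ∏ i ∈ Finset.range n, coin p {x i}
      ≤ ∏ _i ∈ Finset.range n, ENNReal.ofReal (max p.1 (1 - p.1)) :=
        Finset.prod_le_prod' fun i _ => coin_singleton p (x i)
    _ = ENNReal.ofReal (max p.1 (1 - p.1)) ^ n := by simp

instance (p : Ioo (0 : ℝ) 1) : NullSingletonClass (bern p) := by
  refine ⟨fun x => ?_⟩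
  have h1 : ENNReal.ofReal (max p.1 (1 - p.1)) < 1 := by
    rw [ENNReal.ofReal_lt_one]
    exact max_lt p.2.2 (by linarith [p.2.1])
  have h2 := ENNReal.tendsto_pow_atTop_nhds_zero_of_lt_one h1
  refine le_antisymm (ge_of_tendsto' h2 fun n => ?_) (zero_le)
  exact (measure_mono (singleton_subset_iff.2 (mem_cyl_self x n))).trans (bern_cyl p x n)

theorem measurePreserving_act (p : Ioo (0 : ℝ) 1) (g : G) :
    MeasurePreserving (act g) (bern p) (bern p) := by
  refine ⟨(continuous_act g).measurable, ?_⟩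
  exact Measure.map_infinitePi_infinitePi_of_inj (P := fun _ : ℕ => coin p) (φ g).injective

theorem measurable_ind : Measurable ind := measurable_of_finite _

theorem map_ind (p : Ioo (0 : ℝ) 1) (i : ℕ) :
    (bern p).map (fun ω => ω i) = coin p := by
  unfold bern
  exact Measure.infinitePi_map_eval (fun _ : ℕ => coin p) i

theorem ae_freq (p : Ioo (0 : ℝ) 1) : bern p (Freq p.1)ᶜ = 0 := by
  have hm : ∀ i, Measurable fun ω : C => ind (ω i) := fun i =>
    measurable_ind.comp (measurable_pi_apply i)
  have hindep : ProbabilityTheory.iIndepFun (fun (i : ℕ) (ω : C) => ind (ω i)) (bern p) := by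
    unfold bern
    exact ProbabilityTheory.iIndepFun_infinitePi (X := fun _ : ℕ => ind) fun _ => measurable_ind
  have hint : Integrable (fun ω : C => ind (ω 0)) (bern p) := by
    refine Integrable.of_bound (hm 0).aestronglyMeasurable 1 (Eventually.of_forall fun ω => ?_)
    unfold ind
    split_ifs <;> simp
  have h := ProbabilityTheory.strong_law_ae_real (μ := bern p) (fun (i : ℕ) (ω : C) => ind (ω i))
    hint (fun i j hij => hindep.indepFun hij) (fun i => by
      refine ⟨(hm i).aemeasurable, (hm 0).aemeasurable, ?_⟩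
      have h1 : ∀ k, (bern p).map (fun ω : C => ind (ω k)) = (coin p).map ind := by
        intro k
        rw [← map_ind p k, Measure.map_map measurable_ind (measurable_pi_apply k)]
        rfl
      rw [h1, h1])
  have hexp : ∫ ω, ind (ω 0) ∂(bern p) = p.1 := by
    have h1 : ∫ ω, ind (ω 0) ∂(bern p) = ∫ b, ind b ∂(coin p) := by
      rw [← map_ind p 0]
      exact (integral_map (measurable_pi_apply 0).aemeasurable
        measurable_ind.aestronglyMeasurable).symm
    rw [h1]
    unfold coin
    rw [integral_add_measure (Integrable.smul_measure (by simp) ENNReal.ofReal_ne_top)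
      (Integrable.smul_measure (by simp) ENNReal.ofReal_ne_top), integral_smul_measure,
      integral_smul_measure, integral_dirac, integral_dirac]
    simp [ind, p.2.1.le]
  have h2 : ∀ᵐ ω ∂(bern p), ω ∈ Freq p.1 := by
    filter_upwards [h] with ω hω
    rw [hexp] at hω
    exact hω
  exact h2

/-! ### Outer measures -/

/-- Maps which are piecewise measure preserving do not decrease outer measure. -/
theorem measure_le_image (μ : Measure C) (g : ℕ → C → C)
    (hg : ∀ n, MeasurePreserving (g n) μ μ) (Z : Set C) (f F : C → C) (hF : Measurable F)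
    (h1 : ∀ z ∈ Z, F (f z) = z) (h2 : ∀ z ∈ Z, ∃ n, f z = g n z) : μ Z ≤ μ (f '' Z) := by
  let B : ℕ → Set C := fun n => {w | w = g n (F w)}
  have hB : ∀ n, MeasurableSet (B n) := fun n =>
    measurableSet_eq_fun measurable_id ((hg n).measurable.comp hF)
  have hB' : ∀ n, MeasurableSet (disjointed B n) := fun n => MeasurableSet.disjointed hB n
  have hsub : Z ⊆ ⋃ n, (g n) ⁻¹' (f '' Z ∩ disjointed B n) := by
    intro z hz
    obtain ⟨n, hn⟩ := h2 z hz
    have h3 : f z ∈ ⋃ n, disjointed B n := by
      rw [iUnion_disjointed]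
      refine mem_iUnion.2 ⟨n, ?_⟩
      change f z = g n (F (f z))
      rw [h1 z hz, hn]
    obtain ⟨m, hm⟩ := mem_iUnion.1 h3
    refine mem_iUnion.2 ⟨m, ?_⟩
    have h4 : f z = g m (F (f z)) := disjointed_subset B m hm
    rw [h1 z hz] at h4
    change g m z ∈ f '' Z ∩ disjointed B m
    rw [← h4]
    exact ⟨mem_image_of_mem f hz, hm⟩
  have hle : ∀ n (A : Set C), μ ((g n) ⁻¹' A) ≤ μ A := by
    intro n A
    calc μ ((g n) ⁻¹' A) ≤ μ ((g n) ⁻¹' toMeasurable μ A) :=
          measure_mono (preimage_mono (subset_toMeasurable μ A))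
      _ = μ (toMeasurable μ A) := (hg n).measure_preimage
          (measurableSet_toMeasurable μ A).nullMeasurableSet
      _ = μ A := measure_toMeasurable A
  calc μ Z ≤ μ (⋃ n, (g n) ⁻¹' (f '' Z ∩ disjointed B n)) := measure_mono hsub
    _ ≤ ∑' n, μ ((g n) ⁻¹' (f '' Z ∩ disjointed B n)) := measure_iUnion_le _
    _ ≤ ∑' n, μ (f '' Z ∩ disjointed B n) := ENNReal.tsum_le_tsum fun n => hle n _
    _ = ∑' n, (μ.restrict (f '' Z)) (disjointed B n) := by
        refine tsum_congr fun n => ?_
        rw [Measure.restrict_apply (hB' n), inter_comm]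
    _ = (μ.restrict (f '' Z)) (⋃ n, disjointed B n) :=
        (measure_iUnion (disjoint_disjointed B) hB').symm
    _ ≤ (μ.restrict (f '' Z)) univ := measure_mono (subset_univ _)
    _ = μ (f '' Z) := by rw [Measure.restrict_apply_univ]

/-! ### The recursion -/

/-- A well-ordered index set of cardinality continuum with small initial segments. -/
abbrev J : Type := (𝔠 : Cardinal.{0}).ord.ToType

theorem mk_C : #C = 𝔠 := Pool.Agent.H3R3.Rigid.mk_C

theorem exists_points (T : J → Set C) (hT : ∀ i, 𝔠 ≤ #(T i)) (F : J → C → C) :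
    ∃ x : J → C, (∀ i, x i ∈ T i) ∧ (∀ i, Bal (x i)) ∧ ∀ i, ∀ j < i, ¬ E (x j) (x i) ∧
      ∀ k < i, ∀ z, E (x j) z → ¬ E (F k z) (x i) := by
  classical
  let Q : ∀ i : J, (∀ j, j < i → C) → C → Prop := fun i g a => a ∈ T i ∧ Bal a ∧
    ∀ j, ∀ hj : j < i, ¬ E (g j hj) a ∧ ∀ k < i, ∀ z, E (g j hj) z → ¬ E (F k z) a
  have hQ : ∀ i g, ∃ a, Q i g a := by
    intro i g
    let D : Iio i × Iio i → Set C := fun q =>
      {a | E (g q.1.1 q.1.2) a} ∪ ⋃ z ∈ {z | E (g q.1.1 q.1.2) z}, {a | E (F q.2.1 z) a}
    have hD : ∀ q, (D q).Countable := fun q => (countable_class _).union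
      ((countable_class _).biUnion fun z _ => countable_class _)
    have hi : #(Iio i) < 𝔠 := by
      have := Cardinal.mk_Iio_lt i (by simp)
      simpa using this
    have h1 : #(⋃ q, D q) < 𝔠 := by
      have h2 : #(⋃ q, D q) ≤ #(Iio i × Iio i) * ℵ₀ := by
        refine (mk_iUnion_le _).trans ?_
        refine mul_le_mul_right ?_ _
        exact ciSup_le' fun q => (hD q).le_aleph0
      refine h2.trans_lt (mul_lt_of_lt aleph0_le_continuum ?_ aleph0_lt_continuum)
      simp only [mk_prod, lift_id]
      exact mul_lt_of_lt aleph0_le_continuum hi hi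
    have h3 : #({x : C | ¬ Bal x} ∪ ⋃ q, D q : Set C) < 𝔠 :=
      (mk_union_le _ _).trans_lt (add_lt_of_lt aleph0_le_continuum
        (countable_not_bal.le_aleph0.trans_lt aleph0_lt_continuum) h1)
    have h4 : ∃ a ∈ T i, a ∉ {x : C | ¬ Bal x} ∪ ⋃ q, D q := by
      by_contra! hc
      exact absurd ((hT i).trans (mk_le_mk_of_subset hc)) (not_le.2 h3)
    obtain ⟨a, ha, haN⟩ := h4
    refine ⟨a, ha, not_not.1 fun h => haN (Or.inl h), fun j hj => ⟨fun h => haN (Or.inr ?_),
      fun k hk z hz h => haN (Or.inr ?_)⟩⟩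
    · exact mem_iUnion.2 ⟨(⟨j, hj⟩, ⟨j, hj⟩), Or.inl h⟩
    · exact mem_iUnion.2 ⟨(⟨j, hj⟩, ⟨k, hk⟩), Or.inr (mem_biUnion hz h)⟩
  obtain ⟨x, hx⟩ := Pool.Agent.H3R3.Rigid.exists_rec (r := fun a b : J => a < b) wellFounded_lt Q hQ
  exact ⟨x, fun i => (hx i).1, fun i => (hx i).2.1, fun i j hj => (hx i).2.2 j hj⟩

theorem ext_embed {Y : Type} [TopologicalSpace Y] {v : Y → C} (hv : IsEmbedding v) {f : Y → C}
    (hf : Continuous f) : ∃ F : C → C, Measurable F ∧ ∀ y, F (v y) = f y := by
  obtain ⟨F, hF, hFf⟩ := Pool.Agent.Y443.BR.exists_extension (X := range v)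
    (fun z => f (hv.toHomeomorph.symm z)) (hf.comp hv.toHomeomorph.symm.continuous).measurable
  refine ⟨F, hF, fun y => ?_⟩
  have h := hFf ⟨v y, mem_range_self y⟩
  rw [h]
  congr 1
  exact hv.toHomeomorph.symm_apply_eq.2 rfl

theorem exists_main : ∃ X : Set C, (∀ x ∈ X, Bal x) ∧ (∀ x ∈ X, ∀ z, E x z → z ∈ X) ∧
    (∀ B : Set C, MeasurableSet B → ¬ B.Countable → (B ∩ X).Nonempty) ∧
    ∀ (F F' : C → C), Measurable F → Measurable F' → ∃ S : Set C, #S < 𝔠 ∧
      ∀ z ∈ X, F z ∈ X → F' (F z) = z → ¬ E z (F z) → ∃ s ∈ S, E s z := by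
  classical
  obtain ⟨eF, heF⟩ : ∃ e : J → {f : C → C // Measurable f}, Function.Surjective e := by
    have h1 : #{f : C → C // Measurable f} ≤ #J := by
      rw [mk_ord_toType]
      exact Pool.Agent.Y443.BR.mk_borelMap
    obtain ⟨g⟩ := h1
    have : Nonempty {f : C → C // Measurable f} := ⟨⟨id, measurable_id⟩⟩
    exact ⟨Function.invFun g, Function.invFun_surjective g.injective⟩
  obtain ⟨eB, heB⟩ : ∃ e : J → {B : Set C // MeasurableSet B}, Function.Surjective e := by
    have h1 : #{B : Set C // MeasurableSet B} ≤ #J := by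
      rw [mk_ord_toType]
      exact Pool.Agent.Y443.BR.mk_borel
    obtain ⟨g⟩ := h1
    have : Nonempty {B : Set C // MeasurableSet B} := ⟨⟨∅, MeasurableSet.empty⟩⟩
    exact ⟨Function.invFun g, Function.invFun_surjective g.injective⟩
  let T : J → Set C := fun i => if 𝔠 ≤ #((eB i).1) then (eB i).1 else univ
  have hT : ∀ i, 𝔠 ≤ #(T i) := by
    intro i
    by_cases h : 𝔠 ≤ #((eB i).1)
    · simp only [T, if_pos h]
      exact h
    · simp only [T, if_neg h]
      rw [mk_univ, mk_C]
  obtain ⟨x, hx1, hx2, hx3⟩ := exists_points T hT fun i => (eF i).1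
  refine ⟨{y | ∃ i, E (x i) y}, ?_, ?_, ?_, ?_⟩
  · rintro y ⟨i, hi⟩
    exact (hx2 i).of_E hi
  · rintro y ⟨i, hi⟩ z hz
    exact ⟨i, hE.trans hi hz⟩
  · intro B hB hBc
    obtain ⟨i, hi⟩ := heB ⟨B, hB⟩
    have h1 : 𝔠 ≤ #((eB i).1) := by
      rw [hi]
      exact Pool.Agent.Y443.BR.continuum_le_of_borel hB hBc
    have h2 := hx1 i
    simp only [T, if_pos h1, hi] at h2
    exact ⟨x i, h2, i, hE.refl _⟩
  · intro F F' hF hF'
    obtain ⟨k, hk⟩ := heF ⟨F, hF⟩
    obtain ⟨k', hk'⟩ := heF ⟨F', hF'⟩
    refine ⟨x '' Iic (max k k'), ?_, ?_⟩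
    · refine mk_image_le.trans_lt ?_
      have h1 : Iic (max k k') = Iio (max k k') ∪ {max k k'} := by
        ext a
        simp [le_iff_lt_or_eq]
      rw [h1]
      refine (mk_union_le _ _).trans_lt (add_lt_of_lt aleph0_le_continuum ?_ ?_)
      · have := Cardinal.mk_Iio_lt (max k k') (by simp)
        simpa using this
      · rw [mk_singleton]
        exact one_lt_aleph0.trans aleph0_lt_continuum
    · rintro z ⟨i, hi⟩ ⟨j, hj⟩ hFz hne
      refine ⟨x i, mem_image_of_mem x ?_, hi⟩
      rcases lt_trichotomy i j with h | h | h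
      · by_contra hc
        have h1 : k < j := ((le_max_left _ _).trans_lt (not_le.1 hc)).trans h
        have h2 := (hx3 j i h).2 k h1 z hi
        rw [hk] at h2
        exact h2 (hE.symm hj)
      · subst h
        exact absurd (hE.trans (hE.symm hi) hj) hne
      · by_contra hc
        have h1 : k' < i := (le_max_right _ _).trans_lt (not_le.1 hc)
        have h2 := (hx3 i j h).2 k' h1 (F z) hj
        rw [hk'] at h2
        have h3 : E (F' (F z)) (x i) := by
          rw [hFz]
          exact hE.symm hi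
        exact h2 h3

/-! ### Cardinal arithmetic -/

theorem exists_large {P : Type} (hP : 𝔠 ≤ #P) (T : ℕ → Set P) (hT : ∀ p, ∃ n, p ∈ T n) :
    ∃ n, 𝔠 ≤ #(T n) := by
  by_contra! h
  have h1 : #P ≤ Cardinal.sum fun n => #(T n) := by
    rw [← mk_univ, ← (eq_univ_of_forall fun p => mem_iUnion.2 (hT p) : (⋃ n, T n) = Set.univ)]
    exact mk_iUnion_le_sum_mk
  have h2 := Cardinal.sum_lt_prod (fun n => #(T n)) (fun _ : ℕ => 𝔠) h
  have h3 : Cardinal.prod (fun _ : ℕ => 𝔠) = 𝔠 := by
    rw [prod_const, lift_id, mk_nat, lift_aleph0, continuum_power_aleph0]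
  rw [h3] at h2
  exact absurd (hP.trans h1) (not_le.2 h2)

theorem mk_Ioo : 𝔠 ≤ #(Ioo (0 : ℝ) 1) := (Cardinal.mk_Ioo_real zero_lt_one).ge

/-- There is a nonempty homogeneous subspace of the Cantor space which is not a countable union of
strongly homogeneous subspaces. -/
theorem result : ∃ X : Set (ℕ → Bool), X.Nonempty ∧ Homogeneous X ∧
    ¬ SigmaStronglyHomogeneous X := by
  obtain ⟨X, hbal, hinv, hmeet, hexc⟩ := exists_main
  have hfull : ∀ p, bern p X = 1 := by
    intro p
    have h1 : ((toMeasurable (bern p) X)ᶜ).Countable := by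
      by_contra hc
      obtain ⟨z, hz, hzX⟩ := hmeet _ (measurableSet_toMeasurable (bern p) X).compl hc
      exact hz (subset_toMeasurable (bern p) X hzX)
    have h2 : bern p (toMeasurable (bern p) X)ᶜ = 0 := h1.measure_zero _
    rw [← measure_toMeasurable X]
    exact (prob_compl_eq_zero_iff (measurableSet_toMeasurable _ _)).1 h2
  refine ⟨X, ?_, homogeneous hE het hinv fun x hx => dense_class (hbal x hx), ?_⟩
  · rw [nonempty_iff_ne_empty]
    intro h
    have h1 := hfull ⟨1 / 2, by norm_num, by norm_num⟩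
    rw [h, measure_empty] at h1
    exact zero_ne_one h1
  rintro ⟨A, hA, hsh⟩
  -- one of the subspaces is large
  let v : ∀ n, A n → C := fun n y => y.1.1
  have hv : ∀ n, IsEmbedding (v n) := fun n => IsEmbedding.subtypeVal.comp IsEmbedding.subtypeVal
  obtain ⟨n, hn⟩ := exists_large mk_Ioo (fun n => {p | bern p (range (v n)) ≠ 0}) (by
    intro p
    by_contra! h
    have h1 : X ⊆ ⋃ n, range (v n) := by
      intro z hz
      have h2 : (⟨z, hz⟩ : X) ∈ ⋃ n, A n := by rw [hA]; trivial
      obtain ⟨n, hn⟩ := mem_iUnion.1 h2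
      exact mem_iUnion.2 ⟨n, ⟨⟨z, hz⟩, hn⟩, rfl⟩
    have h2 : bern p (⋃ n, range (v n)) = 0 := measure_iUnion_null fun n => by
      have := h n
      simpa using this
    have h3 := measure_mono_null h1 h2
    rw [hfull p] at h3
    exact one_ne_zero h3)
  -- two disjoint nonempty clopen subsets
  obtain ⟨p0, hp0⟩ : ∃ p, bern p (range (v n)) ≠ 0 := by
    by_contra! h
    have h1 : {p | bern p (range (v n)) ≠ 0} = ∅ := by
      refine eq_empty_iff_forall_notMem.2 fun p hp => hp (h p)
    rw [h1, mk_eq_zero] at hn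
    exact absurd hn (not_le.2 (aleph0_pos.trans aleph0_lt_continuum))
  have hnt : Nontrivial (A n) := by
    by_contra hc
    rw [not_nontrivial_iff_subsingleton] at hc
    exact hp0 ((countable_range (v n)).measure_zero _)
  obtain ⟨a, b, hab⟩ := hnt.exists_pair_ne
  obtain ⟨m, hm⟩ : ∃ m, v n a m ≠ v n b m := by
    by_contra! h
    exact hab ((hv n).injective (funext h))
  let U : Bool → Set (A n) := fun c => {y | v n y m = c}
  have hU : ∀ c, IsClopen (U c) := fun c =>
    (isClopen_discrete {c}).preimage ((continuous_apply m).comp (hv n).continuous)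
  have hUne : ∀ c, (U c).Nonempty := by
    intro c
    rcases Bool.eq_false_or_eq_true (v n a m) with h1 | h1 <;>
      rcases Bool.eq_false_or_eq_true (v n b m) with h2 | h2
    · exact absurd (h1.trans h2.symm) hm
    · cases c
      · exact ⟨b, h2⟩
      · exact ⟨a, h1⟩
    · cases c
      · exact ⟨a, h1⟩
      · exact ⟨b, h2⟩
    · exact absurd (h1.trans h2.symm) hm
  have hh : ∀ c, Nonempty (U c ≃ₜ A n) := fun c => (hsh n).2 _ (hU c) (hUne c)
  let e : ∀ c, U c ≃ₜ A n := fun c => (hh c).some
  have hfF : ∀ c, ∃ F F' : C → C, Measurable F ∧ Measurable F' ∧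
      (∀ y, F (v n y) = v n ((e c).symm y).1) ∧ ∀ y, F' (v n ((e c).symm y).1) = v n y := by
    intro c
    obtain ⟨F, hF, hF1⟩ := ext_embed (hv n)
      (f := fun y => v n ((e c).symm y).1)
      ((hv n).continuous.comp (continuous_subtype_val.comp (e c).symm.continuous))
    obtain ⟨F', hF', hF1'⟩ := ext_embed (v := fun u : U c => v n u.1)
      ((hv n).comp IsEmbedding.subtypeVal) (f := fun u => v n (e c u))
      ((hv n).continuous.comp (e c).continuous)
    refine ⟨F, F', hF, hF', hF1, fun y => ?_⟩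
    have h1 := hF1' ((e c).symm y)
    rw [(e c).apply_symm_apply] at h1
    exact h1
  choose F F' hF hF' hF1 hF1' using hfF
  choose S hS hSE using fun c => hexc (F c) (F' c) (hF c) (hF' c)
  -- a good `p`
  obtain ⟨p, hp, hpS⟩ : ∃ p ∈ {p | bern p (range (v n)) ≠ 0}, ∀ c, ∀ s ∈ S c, s ∉ Freq p.1 := by
    by_contra! hc
    choose! c s hs hsp using hc
    have h1 : #{p | bern p (range (v n)) ≠ 0} ≤ #(S false ∪ S true : Set C) := by
      refine mk_le_of_injective (f := fun p : {p | bern p (range (v n)) ≠ 0} =>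
        (⟨s p.1, by
          have := hs p.1 p.2
          revert this
          cases c p.1
          · exact Or.inl
          · exact Or.inr⟩ : (S false ∪ S true : Set C))) ?_
      intro p q hpq
      have h2 : s p.1 = s q.1 := congrArg Subtype.val hpq
      have h3 := hsp p.1 p.2
      rw [h2] at h3
      exact Subtype.ext (Subtype.ext (Freq.eq h3 (hsp q.1 q.2)))
    have h2 : #(S false ∪ S true : Set C) < 𝔠 :=
      (mk_union_le _ _).trans_lt (add_lt_of_lt aleph0_le_continuum (hS false) (hS true))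
    exact absurd (hn.trans h1) (not_le.2 h2)
  -- the contradiction
  obtain ⟨enum, henum⟩ := exists_surjective_nat G
  let Z : Set C := range (v n) ∩ Freq p.1
  have hZ : bern p (range (v n)) ≤ bern p Z := by
    have h1 : range (v n) ⊆ Z ∪ (Freq p.1)ᶜ := by
      intro z hz
      by_cases h : z ∈ Freq p.1
      · exact Or.inl ⟨hz, h⟩
      · exact Or.inr h
    calc bern p (range (v n)) ≤ bern p (Z ∪ (Freq p.1)ᶜ) := measure_mono h1
      _ ≤ bern p Z + bern p (Freq p.1)ᶜ := measure_union_le _ _
      _ = bern p Z := by rw [ae_freq, add_zero]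
  have hFE : ∀ c, ∀ z ∈ Z, E z (F c z) := by
    rintro c z ⟨⟨y, rfl⟩, hzp⟩
    by_contra hne
    obtain ⟨s, hs, hsz⟩ := hSE c (v n y) y.1.2 (by
      rw [hF1]
      exact ((e c).symm y).1.1.2) (by rw [hF1, hF1']) hne
    exact hpS c s hs (Freq.of_E hzp (hE.symm hsz))
  have hle : ∀ c, bern p Z ≤ bern p (F c '' Z) := by
    intro c
    refine measure_le_image (bern p) (fun k => act (enum k)) (fun k => measurePreserving_act p _)
      Z (F c) (F' c) (hF' c) ?_ ?_
    · rintro z ⟨⟨y, rfl⟩, -⟩
      rw [hF1, hF1']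
    · intro z hz
      obtain ⟨g, hg⟩ := hFE c z hz
      obtain ⟨k, rfl⟩ := henum g
      exact ⟨k, hg.symm⟩
  let D : Set C := {z | z m = true}
  have hD : MeasurableSet D := by
    have : IsClopen D := (isClopen_discrete {true}).preimage (continuous_apply m)
    exact this.2.measurableSet
  have h1 : F true '' Z ⊆ range (v n) ∩ D := by
    rintro _ ⟨z, ⟨⟨y, rfl⟩, -⟩, rfl⟩
    rw [hF1]
    exact ⟨mem_range_self _, ((e true).symm y).2⟩
  have h2 : F false '' Z ⊆ range (v n) \ D := by
    rintro _ ⟨z, ⟨⟨y, rfl⟩, -⟩, rfl⟩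
    rw [hF1]
    refine ⟨mem_range_self _, fun h => ?_⟩
    have h3 : v n ((e false).symm y).1 m = false := ((e false).symm y).2
    have h4 : v n ((e false).symm y).1 m = true := h
    rw [h3] at h4
    exact Bool.false_ne_true h4
  have h3 : bern p (range (v n)) + bern p (range (v n)) ≤ bern p (range (v n)) := by
    calc bern p (range (v n)) + bern p (range (v n))
        ≤ bern p (F true '' Z) + bern p (F false '' Z) :=
          add_le_add (hZ.trans (hle true)) (hZ.trans (hle false))
      _ ≤ bern p (range (v n) ∩ D) + bern p (range (v n) \ D) :=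
          add_le_add (measure_mono h1) (measure_mono h2)
      _ = bern p (range (v n)) := measure_inter_add_sdiff _ hD
  have h4 : bern p (range (v n)) ≠ ⊤ := measure_ne_top _ _
  refine hp ?_
  have h5 : bern p (range (v n)) + bern p (range (v n)) ≤ bern p (range (v n)) + 0 := by
    rwa [add_zero]
  exact le_antisymm ((ENNReal.add_le_add_iff_left h4).1 h5) (zero_le)

end Pool.Agent.Results.MP_999952_gt.NotStrongly
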